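import Pool.Agent.Helper76.LEO.Defs

/-!
# LEO: goals
-/

namespace Pool.Agent.Helper76.LEO

open NumberField Module Pool.Agent.Helper51.SigLeo Pool.Agent.Helper38.FD

/-- The full logarithm is injective on the parts of the characters `χ φ`, `χ` a character of `Gal(M/F)`, `φ` a
character which cuts out `N`. -/
def GoodC {p : ℕ} [Fact p.Prime] {F : Type} [Field F] (ιinf : AlgebraicClosure F →+* ℂ)
    (ιp : AlgebraicClosure F →+* ℂ_[p]) (L : IwasawaLog p ℂ_[p])
    (M N : IntermediateField F (AlgebraicClosure F)) : Prop :=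
  ∀ χ φ : Chr F (AlgebraicClosure F) ℂ_[p], (∀ g, (∀ x ∈ M, g x = x) → χ g = 1) →
    CutsOut φ N → LeopoldtFor ιinf ιp L Set.univ (χ * φ)

/-- **L_DEN** (the density theorem for fields, in terms of characters; from `w_denl`).

PROOF. `ι` = the finite set of the characters `χ' : Gal(M/F) → ℂ_pˣ`; `χ₀ = χ' ∘ restriction`, `M_i` its field, `ψ₀ = 1`,
`F₀ = ⊥`, `S = univ`, `T = univ`. The classes are the orbits of `χ ↦ χ^p`; the orbit of `χ` has `f` elements, `f` the order of `p`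
modulo the order of `χ` (`χ^(p^j) = χ` if and only if `ord χ` divides `p^j - 1`), `[M_i : F] = ord χ`. The sum of `1/f_χ · t_χ` over all
`χ` is the sum of `t` over the orbits. `d = r₁ + r₂ = rank + 1 ≥ nUr`, `|T| = r₁ + 2 r₂`, `Q^d/Q^|T| = Q^(-r₂)`. `χ₀` and all `χ₀^(1 + p^j)`
are not congruent to `ω`: `μ_p ⊄ M`, so there is `g` which is the identity on `M` and not on `μ_p`: `g ξ = ξ^r`, `r` not `≡ 1`,
`‖χ₀(g) - r‖ = ‖1 - r‖ = 1`; so case (c) for `M_i ≠ ⊥`. `p ≠ 2` because `-1 ∈ M`. Pairs: `B = {(N, φ) : N ∈ A, φ cuts out N}`,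
`e(N, φ) = e N`: every `N ∈ CycExt` has exactly `p - 1` characters `φ`, so the counts of pairs are `p - 1` times those of fields (for the
bad set: `N` is bad if some `φ` is bad, and then all the powers `φ^i`, `p ∤ i`, i.e. all the characters which cut out `N` are bad for some
`χ`: `GoodV` is stated for all `i`, so `(N, φ)` good for all `χ'` gives `GoodC` for `N`). `LocC`, `LocE` from `IsFamily.same`,
`IsFactor.same`: if `φ = φ'` on `D_τ` then `D_τ` has the same intersection with `Gal(Ω/N)` and `Gal(Ω/N')`. The condition at `σ`: if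
`NonOm χ₀ σ` fails for some `χ₀`, there is `τ` above `σ` such that all `g ∈ D_τ` trivial on `M` are trivial on `μ_p`, so `D_τ` fixes `N`
(`IsFamily.split`), and all `τ'` above `σ` are `τ ∘ h` (`SL.exists_gal_comp`), `N/F` Galois: `DecT φ σ`. -/
def L_DEN : Prop :=
  ∀ (p : ℕ) [Fact p.Prime] (F : Type) [Field F] [NumberField F]
    (M : IntermediateField F (AlgebraicClosure F)) [FiniteDimensional F M] [IsGalois F M],
    (∀ g h : M ≃ₐ[F] M, g * h = h * g) → (finrank F M).Coprime p →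
    (¬ ∃ ξ : M, IsPrimitiveRoot ξ p) →
  ∀ (L : IwasawaLog p ℂ_[p]) (A : Set (IntermediateField F (AlgebraicClosure F))),
    IsFamily p M A → ∀ e : IntermediateField F (AlgebraicClosure F) → ℕ, IsFactor p e →
  ∀ (ιinf : AlgebraicClosure F →+* ℂ) (ιp : AlgebraicClosure F →+* ℂ_[p]),
    (∀ X : ℕ, {N | N ∈ CycExt p F ∧ tame p F N * e N ≤ X}.Finite) ∧
    (∀ η : ℝ, 0 < η → ∀ᶠ X : ℕ in Filter.atTop,
      count p e {N | N ∈ A ∧ ¬ GoodC ιinf ιp L M N} X ≤ (theta p M + η) * count p e A X) ∧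
    (∃ δ : ℝ, 0 < δ ∧ ∀ᶠ X : ℕ in Filter.atTop,
      0 < count p e (CycExt p F) X ∧ δ * count p e (CycExt p F) X ≤ count p e A X)

/-- **L_GOOD** (from characters to fields). -/
def L_GOOD : Prop :=
  ∀ (p : ℕ) [Fact p.Prime] (F : Type) [Field F] [NumberField F]
    (M : IntermediateField F (AlgebraicClosure F)) [FiniteDimensional F M] [IsGalois F M],
    (∀ g h : M ≃ₐ[F] M, g * h = h * g) → (finrank F M).Coprime p → p ≠ 2 →
  ∀ (L : IwasawaLog p ℂ_[p]) (N : IntermediateField F (AlgebraicClosure F)), N ∈ CycExt p F →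
  ∀ (ιinf : AlgebraicClosure F →+* ℂ) (ιp : AlgebraicClosure F →+* ℂ_[p]),
    GoodC ιinf ιp L M N → Good L M N

end Pool.Agent.Helper76.LEO
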