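import Pool.Agent.Helper76.LEO.Good

/-!
# LEO: the final theorem, from `L_DEN`
-/

set_option autoImplicit false

namespace Pool.Agent.Helper76.LEO

open NumberField Module TensorProduct Pool.Agent.Helper51.SigLeo Pool.Agent.Helper59.SL
open Pool.Agent.Helper38.FD

theorem main_leo (hDEN : L_DEN) (p : ℕ) [Fact p.Prime] (F : Type) [Field F] [NumberField F]
    (M : IntermediateField F (AlgebraicClosure F)) [FiniteDimensional F M] [IsGalois F M]
    (hM : ∀ g h : M ≃ₐ[F] M, g * h = h * g) (hcop : (finrank F M).Coprime p)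
    (hμ : ¬ ∃ ξ : M, IsPrimitiveRoot ξ p) (L : IwasawaLog p ℂ_[p])
    (A : Set (IntermediateField F (AlgebraicClosure F))) (hA : IsFamily p M A)
    (e : IntermediateField F (AlgebraicClosure F) → ℕ) (he : IsFactor p e) :
    (∀ X : ℕ, {N | N ∈ CycExt p F ∧ tame p F N * e N ≤ X}.Finite) ∧
    (∀ η : ℝ, 0 < η → ∀ᶠ X : ℕ in Filter.atTop,
      count p e {N | N ∈ A ∧ ¬ Good L M N} X ≤ (theta p M + η) * count p e A X) ∧
    (∃ δ : ℝ, 0 < δ ∧ ∀ᶠ X : ℕ in Filter.atTop,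
      0 < count p e (CycExt p F) X ∧ δ * count p e (CycExt p F) X ≤ count p e A X) := by
  obtain ⟨ιinf, -⟩ := exists_extend_embedding (K := F) (H := AlgebraicClosure F)
    (Classical.arbitrary (F →+* ℂ))
  obtain ⟨ιp, -⟩ := exists_extend_embedding (K := F) (H := AlgebraicClosure F)
    (Classical.arbitrary (F →+* ℂ_[p]))
  have hp2 : p ≠ 2 := by
    intro h
    subst h
    exact hμ ⟨-1, IsPrimitiveRoot.neg_one 0 (by norm_num)⟩
  obtain ⟨h1, h2, h3⟩ := hDEN p F M hM hcop hμ L A hA e he ιinf ιp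
  refine ⟨h1, fun η hη ↦ ?_, h3⟩
  filter_upwards [h2 η hη] with X hX
  refine le_trans ?_ hX
  unfold count
  refine Nat.cast_le.2 (Set.ncard_le_ncard ?_ ?_)
  · rintro N ⟨⟨hNA, hN⟩, hNX⟩
    exact ⟨⟨hNA, fun hg ↦ hN (l_good p F M hM hcop hp2 L N (hA.subset hNA) ιinf ιp hg)⟩, hNX⟩
  · refine (h1 X).subset ?_
    rintro N ⟨⟨hNA, -⟩, hNX⟩
    exact ⟨hA.subset hNA, hNX⟩

end Pool.Agent.Helper76.LEO
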