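import Pool.Agent.Helper76.LEO.Alg
import Pool.Agent.Helper12.SLG.INJ
import Pool.Agent.Helper45.SLG.EIGSPAN

/-!
# LEO: Leopoldt's conjecture for abelian extensions of a field with one infinite place (Brumer)
-/

namespace Pool.Agent.Helper76.LEO

open NumberField Module TensorProduct Pool.Agent.Helper51.SigLeo Pool.Agent.Helper59.SL
open Pool.Agent.Helper51.SixExp

/-- Over a field with one infinite place the eigenvectors are determined by one archimedean logarithm. -/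
theorem eig_arch (hA : S_ARCH.{0}) {k F : Type} [Field k] [NumberField k] [Field F] [NumberField F]
    [Algebra k F] [IsGalois k F] (hk : ∀ v w : InfinitePlace k, v = w) (φ₀ : F →+* ℂ)
    (θ : (F ≃ₐ[k] F) → ℂ) (x : ℂ ⊗[ℤ] Additive (𝓞 F)ˣ) (hx : Eig θ x)
    (h0 : extHom (logC φ₀) x = 0) : x = 0 := by
  apply hA
  intro φ
  -- `φ` or its conjugate has the same restriction to `k` as `φ₀`
  have h1 : InfinitePlace.mk (φ.comp (algebraMap k F)) =
      InfinitePlace.mk (φ₀.comp (algebraMap k F)) := hk _ _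
  obtain ⟨ψ, hψ1, hψ2⟩ : ∃ ψ : F →+* ℂ, logC ψ = logC φ ∧
      ψ.comp (algebraMap k F) = φ₀.comp (algebraMap k F) := by
    rcases InfinitePlace.mk_eq_iff.1 h1 with h2 | h2
    · exact ⟨φ, rfl, h2⟩
    · exact ⟨ComplexEmbedding.conjugate φ, logC_conjugate φ, by
        rw [← h2, ComplexEmbedding.conjugate_comp]⟩
  obtain ⟨g, hg⟩ := exists_gal_comp φ₀ ψ hψ2
  rw [← hψ1, hg, extHom_logC_gal, hx g, map_smul, h0, smul_zero]

theorem leopoldt_abelian' (hT : S_TRT.{0, 0, 0}) (hA : S_ARCH.{0}) (hB : S_BC.{0, 0, 0, 0})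
    (hV : S_VAL.{0, 0, 0}) {p : ℕ} [Fact p.Prime] (L : IwasawaLog p ℂ_[p]) {k F : Type} [Field k]
    [NumberField k] [Field F] [NumberField F] [Algebra k F] [IsGalois k F]
    (hcomm : ∀ g h : F ≃ₐ[k] F, g * h = h * g) (hk : ∀ v w : InfinitePlace k, v = w) :
    Leopoldt L F := by
  classical
  have hfd : FiniteDimensional k F := FiniteDimensional.right ℚ k F
  have hfin : Finite ((F ≃ₐ[k] F) →* ℂ_[p]ˣ) := by
    let _ : CommGroup (F ≃ₐ[k] F) :=
      { (inferInstance : Group (F ≃ₐ[k] F)) with mul_comm := hcomm }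
    infer_instance
  have hft : Fintype ((F ≃ₐ[k] F) →* ℂ_[p]ˣ) := Fintype.ofFinite _
  have : @Algebra.IsAlgebraic ℚ (AlgebraicClosure ℚ) _ _ DivisionRing.toRatAlgebra := by
    convert! AlgebraicClosure.isAlgebraic ℚ
  rw [leopoldt_iff]
  intro x hx
  rw [← sum_eChi hcomm x]
  refine Finset.sum_eq_zero fun χ _ ↦ ?_
  set z := eChi (finrank k F) χ unitsHom x with hz
  have hzE : Eig (fun γ : F ≃ₐ[k] F ↦ ((χ γ : ℂ_[p]ˣ) : ℂ_[p])) z := eig_eChi _ χ x
  have hzk : ∀ τ : F →+* ℂ_[p], extHom (logUnits L τ) z = 0 := eChi_kill L _ χ x hx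
  -- the embedding
  obtain ⟨ι, -⟩ := exists_extend_embedding (K := ℚ) (H := AlgebraicClosure ℚ)
    (algebraMap ℚ ℂ_[p])
  obtain ⟨E, hE, χ₀, hχ₀⟩ := hV ℂ_[p] (AlgebraicClosure ℚ) ι (F ≃ₐ[k] F) χ
  obtain ⟨ε, -⟩ := exists_extend_embedding (K := ℚ) (H := E) (algebraMap ℚ ℂ)
  obtain ⟨φ₀, -⟩ := exists_extend_embedding (K := ℚ) (H := F) (algebraMap ℚ ℂ)
  obtain ⟨n', m, hn', hli, hmE, hspan⟩ := Pool.Agent.Helper45.SLG.EIGSPAN.thm hB k F E χ₀ ε 1
    (fun _ ↦ φ₀) (fun y hy h0 ↦ eig_arch hA hk φ₀ _ y hy (h0 0))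
  obtain ⟨c, hc⟩ := hspan ℂ_[p] (ι.comp (algebraMap E (AlgebraicClosure ℚ))) z (by
    intro γ
    rw [hzE γ]
    congr 1
    exact (hχ₀ γ).symm)
  have hI := Pool.Agent.Helper12.SLG.INJ.thm hT hA hB
  obtain ⟨τ, -⟩ := exists_extend_embedding (K := ℚ) (H := F) (algebraMap ℚ ℂ_[p])
  rw [hc]
  refine Finset.sum_eq_zero fun j _ ↦ ?_
  -- there is only one `j`
  have huni : ∀ j' : Fin n', j' = j := by
    intro j'
    apply Fin.ext
    have := j'.2
    have := j.2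
    omega
  have h1 : z = c j • cc (ι.comp (algebraMap E (AlgebraicClosure ℚ))) (m j) := by
    rw [hc]
    refine Finset.sum_eq_single j (fun j' _ h ↦ absurd (huni j') h) fun h ↦ ?_
    exact absurd (Finset.mem_univ _) h
  have h2 := hzk τ
  rw [h1, map_smul, smul_eq_mul] at h2
  rcases mul_eq_zero.1 h2 with h3 | h3
  · rw [h3, zero_smul]
  · have h4 := hI p ℂ_[p] (AlgebraicClosure ℚ) ι L E (algebraMap E (AlgebraicClosure ℚ)) F τ
      (m j) h3
    rw [h4, map_zero, smul_zero]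

end Pool.Agent.Helper76.LEO
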