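import Pool.Agent.Helper76.LEO.Defs
import Pool.Agent.Helper59.SL.Defs

/-!
# LEO: Leopoldt's conjecture and characters
-/

namespace Pool.Agent.Helper76.LEO

open NumberField Module TensorProduct Pool.Agent.Helper51.SigLeo Pool.Agent.Helper59.SL

section chars

variable {F H : Type} [Field F] [Field H] [Algebra F H] [FiniteDimensional F H] [IsGalois F H]
variable {k : Type} [Field k] [CharZero k] [IsAlgClosed k]

omit [IsGalois F H] in
/-- The sum of the values of the characters at an element `≠ 1`. -/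
theorem sum_chars (hcomm : ∀ g h : H ≃ₐ[F] H, g * h = h * g) [Fintype ((H ≃ₐ[F] H) →* kˣ)]
    (g : H ≃ₐ[F] H) (hg : g ≠ 1) : ∑ χ : (H ≃ₐ[F] H) →* kˣ, ((χ g⁻¹ : kˣ) : k) = 0 := by
  classical
  let _ : CommGroup (H ≃ₐ[F] H) := { (inferInstance : Group (H ≃ₐ[F] H)) with mul_comm := hcomm }
  obtain ⟨φ, hφ⟩ := CommGroup.exists_apply_ne_one_of_hasEnoughRootsOfUnity (H ≃ₐ[F] H) k
    (inv_ne_one.2 hg)
  have h1 : ((φ g⁻¹ : kˣ) : k) * ∑ χ : (H ≃ₐ[F] H) →* kˣ, ((χ g⁻¹ : kˣ) : k) =
      ∑ χ : (H ≃ₐ[F] H) →* kˣ, ((χ g⁻¹ : kˣ) : k) := by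
    rw [Finset.mul_sum, ← Equiv.sum_comp (Equiv.mulLeft φ)
      fun χ : (H ≃ₐ[F] H) →* kˣ ↦ ((χ g⁻¹ : kˣ) : k)]
    refine Finset.sum_congr rfl fun χ _ ↦ ?_
    show ((φ g⁻¹ : kˣ) : k) * ((χ g⁻¹ : kˣ) : k) = (((φ * χ) g⁻¹ : kˣ) : k)
    rw [MonoidHom.mul_apply, Units.val_mul]
  have h2 : (((φ g⁻¹ : kˣ) : k) - 1) * ∑ χ : (H ≃ₐ[F] H) →* kˣ, ((χ g⁻¹ : kˣ) : k) = 0 := by
    rw [sub_mul, h1, one_mul, sub_self]
  rcases mul_eq_zero.1 h2 with h3 | h3
  · exfalso
    apply hφ
    rw [sub_eq_zero] at h3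
    exact Units.ext h3
  · exact h3

/-- If the group is commutative, an element is the sum of its components. -/
theorem sum_eChi (hcomm : ∀ g h : H ≃ₐ[F] H, g * h = h * g) [Fintype ((H ≃ₐ[F] H) →* kˣ)]
    (x : k ⊗[ℤ] Additive (𝓞 H)ˣ) :
    ∑ χ : (H ≃ₐ[F] H) →* kˣ, eChi (finrank F H) χ unitsHom x = x := by
  classical
  have hcard : Fintype.card ((H ≃ₐ[F] H) →* kˣ) = finrank F H := by
    let _ : CommGroup (H ≃ₐ[F] H) :=
      { (inferInstance : Group (H ≃ₐ[F] H)) with mul_comm := hcomm }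
    have h1 := CommGroup.card_monoidHom_of_hasEnoughRootsOfUnity (H ≃ₐ[F] H) k
    rw [IsGalois.card_aut_eq_finrank] at h1
    rw [← Nat.card_eq_fintype_card]
    exact h1
  have hpos : 0 < finrank F H := finrank_pos
  unfold eChi
  simp only [finsum_eq_sum_of_fintype]
  rw [← Finset.smul_sum, Finset.sum_comm, Finset.sum_eq_single (1 : H ≃ₐ[F] H)]
  · rw [← Finset.sum_smul]
    have h2 : ∑ χ : (H ≃ₐ[F] H) →* kˣ, ((χ (1 : H ≃ₐ[F] H)⁻¹ : kˣ) : k) = (finrank F H : k) := by
      simp [hcard]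
    rw [h2, unitsHom_one, extEnd_id, smul_smul, inv_mul_cancel₀ (by exact_mod_cast hpos.ne'),
      one_smul]
  · intro g _ hg
    rw [← Finset.sum_smul, sum_chars hcomm g hg, zero_smul]
  · intro h
    exact absurd (Finset.mem_univ _) h

end chars

section norm

variable {F H : Type} [Field F] [Field H] [Algebra F H] [FiniteDimensional F H] [IsGalois F H]

/-- The norm on the units. -/
noncomputable def nmU (F H : Type) [Field F] [Field H] [Algebra F H] :
    Additive (𝓞 H)ˣ →+ Additive (𝓞 F)ˣ :=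
  AddMonoidHom.mk' (fun u ↦ .ofMul (Units.map (RingOfIntegers.norm F) u.toMul))
    fun _ _ ↦ congrArg Additive.ofMul (map_mul _ _ _)

theorem um_nmU (u : Additive (𝓞 H)ˣ) :
    um (algebraMap F H) (nmU F H u) = ∑ g : H ≃ₐ[F] H, unitsHom g u := by
  classical
  have h1 : ∀ s : Finset (H ≃ₐ[F] H),
      ((((∑ g ∈ s, unitsHom g u : Additive (𝓞 H)ˣ).toMul : (𝓞 H)ˣ) : 𝓞 H) : H) =
        ∏ g ∈ s, g ((u.toMul : (𝓞 H)ˣ) : H) := by
    intro s
    induction s using Finset.induction_on with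
    | empty => simp
    | insert a s ha ih =>
      rw [Finset.sum_insert ha, Finset.prod_insert ha, ← ih]
      rfl
  apply Additive.toMul.injective
  apply Units.ext
  apply RingOfIntegers.ext
  rw [h1 Finset.univ]
  have h2 := Algebra.norm_eq_prod_automorphisms F ((u.toMul : (𝓞 H)ˣ) : H)
  rw [← h2]
  rfl

theorem pf_nmU (A : Type) [Field A] (x : A ⊗[ℤ] Additive (𝓞 H)ˣ) :
    pf A (algebraMap F H) (extM (nmU F H) x) = ∑ g : H ≃ₐ[F] H, extEnd (unitsHom g) x := by
  induction x using TensorProduct.induction_on with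
  | zero => simp
  | tmul c m =>
    rw [extM_tmul, pf_tmul, um_nmU, TensorProduct.tmul_sum]
    exact Finset.sum_congr rfl fun g _ ↦ (extEnd_tmul _ _ _).symm
  | add x y hx hy => simp only [map_add, hx, hy, Finset.sum_add_distrib]

end norm

section main

variable {p : ℕ} [Fact p.Prime] (L : IwasawaLog p ℂ_[p])

theorem mem_logKer {N : Type} [Field N] (x : ℂ_[p] ⊗[ℤ] Additive (𝓞 N)ˣ) :
    x ∈ logKer L N ↔ ∀ τ : N →+* ℂ_[p], extHom (logUnits L τ) x = 0 := by
  simp [logKer, Submodule.mem_iInf, LinearMap.mem_ker]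

theorem leopoldt_iff {N : Type} [Field N] : Leopoldt L N ↔
    ∀ x : ℂ_[p] ⊗[ℤ] Additive (𝓞 N)ˣ, (∀ τ : N →+* ℂ_[p], extHom (logUnits L τ) x = 0) →
      x = 0 := by
  unfold Leopoldt
  rw [Submodule.eq_bot_iff]
  simp only [mem_logKer]

/-- Leopoldt's conjecture says that the defect is zero. -/
theorem leopoldt_iff_defect {N : Type} [Field N] [NumberField N] :
    Leopoldt L N ↔ defect L N = 0 := by
  have := finite_tensor N ℂ_[p]
  unfold Leopoldt defect
  rw [Submodule.finrank_eq_zero]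

/-- All the components of `e_χ(x)` vanish if those of `x` vanish. -/
theorem eChi_kill {F H : Type} [Field F] [Field H] [Algebra F H] [FiniteDimensional F H]
    (n : ℕ) (χ : (H ≃ₐ[F] H) →* ℂ_[p]ˣ) (x : ℂ_[p] ⊗[ℤ] Additive (𝓞 H)ˣ)
    (hx : ∀ τ : H →+* ℂ_[p], extHom (logUnits L τ) x = 0) (τ : H →+* ℂ_[p]) :
    extHom (logUnits L τ) (eChi n χ unitsHom x) = 0 := by
  classical
  unfold eChi
  rw [finsum_eq_sum_of_fintype, map_smul, map_sum]
  rw [Finset.sum_eq_zero, smul_zero]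
  intro g _
  rw [map_smul, ← extHom_logUnits_gal, hx, smul_zero]

/-- The norm of an element of the kernel is in the kernel. -/
theorem extM_nmU_mem {F H : Type} [Field F] [Field H] [Algebra F H] [FiniteDimensional F H]
    [IsGalois F H] (x : ℂ_[p] ⊗[ℤ] Additive (𝓞 H)ˣ) (hx : x ∈ logKer L H) :
    extM (nmU F H) x ∈ logKer L F := by
  classical
  rw [mem_logKer] at hx ⊢
  intro τ
  obtain ⟨σ, hσ⟩ := exists_extend_embedding (H := H) τ
  rw [← hσ, ← extHom_logUnits_pf, pf_nmU, map_sum]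
  refine Finset.sum_eq_zero fun g _ ↦ ?_
  rw [← extHom_logUnits_gal]
  exact hx _

/-- The norm of an element of the base field. -/
theorem extM_nmU_pf {F H : Type} [Field F] [Field H] [Algebra F H] (A : Type) [Field A]
    (y : A ⊗[ℤ] Additive (𝓞 F)ˣ) :
    extM (nmU F H) (pf A (algebraMap F H) y) = (finrank F H : A) • y := by
  induction y using TensorProduct.induction_on with
  | zero => simp
  | tmul c m =>
    rw [pf_tmul, extM_tmul]
    have h : nmU F H (um (algebraMap F H) m) = finrank F H • m := by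
      apply Additive.toMul.injective
      apply Units.ext
      show RingOfIntegers.norm F (algebraMap (𝓞 F) (𝓞 H) ((m.toMul : (𝓞 F)ˣ) : 𝓞 F)) =
        (((m.toMul ^ finrank F H : (𝓞 F)ˣ)) : 𝓞 F)
      rw [RingOfIntegers.norm_algebraMap, Units.val_pow_eq_pow_val]
    rw [h, TensorProduct.tmul_smul, TensorProduct.smul_tmul', ← Nat.cast_smul_eq_nsmul A,
      TensorProduct.smul_tmul']
  | add x y hx hy => simp only [map_add, hx, hy, smul_add]

/-- The image of an element of the kernel of the base field is in the kernel. -/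
theorem pf_mem {F H : Type} [Field F] [Field H] [Algebra F H]
    (y : ℂ_[p] ⊗[ℤ] Additive (𝓞 F)ˣ) (hy : y ∈ logKer L F) :
    pf ℂ_[p] (algebraMap F H) y ∈ logKer L H := by
  rw [mem_logKer] at hy ⊢
  intro τ
  rw [extHom_logUnits_pf]
  exact hy _

/-- `pf` for an extension of fields is injective. -/
theorem pf_injective {F H : Type} [Field F] [Field H] [Algebra F H] [FiniteDimensional F H]
    (A : Type) [Field A] [CharZero A] :
    Function.Injective (pf A (algebraMap F H)) := by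
  have hpos : 0 < finrank F H := finrank_pos
  have hne : (finrank F H : A) ≠ 0 := by exact_mod_cast hpos.ne'
  intro x y h1
  have h2 := congrArg (extM (nmU F H)) h1
  rw [extM_nmU_pf, extM_nmU_pf] at h2
  exact smul_right_injective _ hne h2

/-- If the kernel for `H` is fixed by `Gal(H/F)`, it comes from the kernel for `F`. -/
theorem exists_of_fixed {F H : Type} [Field F] [Field H] [NumberField H]
    [Algebra F H] [FiniteDimensional F H] [IsGalois F H]
    (h : ∀ x ∈ logKer L H, ∀ g : H ≃ₐ[F] H, extEnd (unitsHom g) x = x)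
    (x : ℂ_[p] ⊗[ℤ] Additive (𝓞 H)ˣ) (hx : x ∈ logKer L H) :
    ∃ y ∈ logKer L F, x = pf ℂ_[p] (algebraMap F H) y := by
  classical
  have hpos : 0 < finrank F H := finrank_pos
  have hne : (finrank F H : ℂ_[p]) ≠ 0 := by exact_mod_cast hpos.ne'
  refine ⟨(finrank F H : ℂ_[p])⁻¹ • extM (nmU F H) x,
    Submodule.smul_mem _ _ (extM_nmU_mem L x hx), ?_⟩
  rw [map_smul, pf_nmU, Finset.sum_congr rfl fun g _ ↦ h x hx g, Finset.sum_const,
    Finset.card_univ, ← Nat.card_eq_fintype_card, IsGalois.card_aut_eq_finrank,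
    ← Nat.cast_smul_eq_nsmul ℂ_[p], smul_smul, inv_mul_cancel₀ hne, one_smul]

/-- If the kernel for `H` is fixed by `Gal(H/F)`, the defects are equal. -/
theorem defect_of_fixed {F H : Type} [Field F] [NumberField F] [Field H] [NumberField H]
    [Algebra F H] [IsGalois F H]
    (h : ∀ x ∈ logKer L H, ∀ g : H ≃ₐ[F] H, extEnd (unitsHom g) x = x) :
    defect L H = defect L F := by
  classical
  have hfd : FiniteDimensional F H := FiniteDimensional.right ℚ F H
  have hf1 := finite_tensor F ℂ_[p]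
  have hf2 := finite_tensor H ℂ_[p]
  let f : logKer L F →ₗ[ℂ_[p]] logKer L H :=
    (pf ℂ_[p] (algebraMap F H)).restrict (fun x hx ↦ pf_mem L x hx)
  have hf : Function.Bijective f := by
    constructor
    · intro x y hxy
      apply Subtype.ext
      exact pf_injective ℂ_[p] (congrArg Subtype.val hxy)
    · rintro ⟨x, hx⟩
      obtain ⟨y, hy, hxy⟩ := exists_of_fixed L h x hx
      exact ⟨⟨y, hy⟩, Subtype.ext hxy.symm⟩
  unfold defect
  exact (LinearEquiv.ofBijective f hf).finrank_eq.symm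

/-- If the components of `x` for the characters which are not trivial at `g` vanish, `x` is fixed by `g`. -/
theorem fixed_of_chars {F H : Type} [Field F] [Field H] [Algebra F H] [FiniteDimensional F H]
    [IsGalois F H] (hcomm : ∀ g h : H ≃ₐ[F] H, g * h = h * g) (g : H ≃ₐ[F] H)
    (x : ℂ_[p] ⊗[ℤ] Additive (𝓞 H)ˣ)
    (h : ∀ χ : (H ≃ₐ[F] H) →* ℂ_[p]ˣ, χ g ≠ 1 → eChi (finrank F H) χ unitsHom x = 0) :
    extEnd (unitsHom g) x = x := by
  classical
  have hfin : Finite ((H ≃ₐ[F] H) →* ℂ_[p]ˣ) := by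
    let _ : CommGroup (H ≃ₐ[F] H) :=
      { (inferInstance : Group (H ≃ₐ[F] H)) with mul_comm := hcomm }
    infer_instance
  have hft : Fintype ((H ≃ₐ[F] H) →* ℂ_[p]ˣ) := Fintype.ofFinite _
  conv_lhs => rw [← sum_eChi hcomm x]
  conv_rhs => rw [← sum_eChi hcomm x]
  rw [map_sum]
  refine Finset.sum_congr rfl fun χ _ ↦ ?_
  by_cases hχ : χ g = 1
  · have h1 := eig_eChi (finrank F H) χ x g
    simp only [hχ, Units.val_one, one_smul] at h1
    exact h1
  · rw [h χ hχ, map_zero]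

end main

end Pool.Agent.Helper76.LEO
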