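import Pool.Agent.Helper76.LEO.Alg
import Pool.Agent.Helper51.SigLeo.Bridge
import Pool.Agent.Helper51.SixExp.CM

/-!
# LEO: the `Σ`-Leopoldt conjecture for `χ = 1` from Leopoldt's conjecture for the totally real field
-/

namespace Pool.Agent.Helper76.LEO

open NumberField Module TensorProduct Pool.Agent.Helper51.SigLeo Pool.Agent.Helper59.SL
open Pool.Agent.Helper38.FD Pool.Agent.Helper51.SixExp

section tors

/-- Torsion elements vanish in `k ⊗ M`. -/
theorem tmul_eq_zero_of_tors {k M : Type} [Field k] [CharZero k] [AddCommGroup M] (c : k) (m : M)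
    (n : ℕ) (hn : 0 < n) (h : n • m = 0) : c ⊗ₜ[ℤ] m = 0 := by
  have h1 : (n : k) • (c ⊗ₜ[ℤ] m) = 0 := by
    rw [Nat.cast_smul_eq_nsmul, ← TensorProduct.tmul_smul, h, TensorProduct.tmul_zero]
  rcases smul_eq_zero.1 h1 with h2 | h2
  · exact absurd (by exact_mod_cast h2) hn.ne'
  · exact h2

end tors

section cm

variable {N K : Type} [Field N] [NumberField N] [Field K] [NumberField K] [Algebra N K]
variable [IsTotallyReal N] [IsTotallyComplex K]

/-- Complex conjugation acts trivially on the units up to torsion. -/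
theorem unitsHom_conj (hNK : finrank N K = 2) (c : K ≃ₐ[N] K) {k : Type} [Field k] [CharZero k]
    (x : k ⊗[ℤ] Additive (𝓞 K)ˣ) : extEnd (unitsHom c) x = x := by
  induction x using TensorProduct.induction_on with
  | zero => simp
  | add x y hx hy => rw [map_add, hx, hy]
  | tmul a u =>
    rw [extEnd_tmul]
    set w : Additive (𝓞 K)ˣ := unitsHom c u - u with hw
    have hwv : (((w.toMul : (𝓞 K)ˣ) : 𝓞 K) : K) =
        c ((u.toMul : (𝓞 K)ˣ) : K) * ((u.toMul : (𝓞 K)ˣ) : K)⁻¹ := by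
      have h1 : w + u = unitsHom c u := sub_add_cancel _ _
      have h2 : (((w.toMul : (𝓞 K)ˣ) : 𝓞 K) : K) * ((u.toMul : (𝓞 K)ˣ) : K) =
          c ((u.toMul : (𝓞 K)ˣ) : K) := by
        have h3 := congrArg (fun z : Additive (𝓞 K)ˣ ↦ (((z.toMul : (𝓞 K)ˣ) : 𝓞 K) : K)) h1
        exact h3
      have h4 : ((u.toMul : (𝓞 K)ˣ) : K) ≠ 0 := by simp
      rw [← h2, mul_inv_cancel_right₀ h4]
    have hnorm : ∀ φ : K →+* ℂ, ‖φ (((w.toMul : (𝓞 K)ˣ) : 𝓞 K) : K)‖ = 1 := by
      intro φ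
      have h4 : φ ((u.toMul : (𝓞 K)ˣ) : K) ≠ 0 := by
        rw [map_ne_zero]; simp
      have h5 : ‖φ (c ((u.toMul : (𝓞 K)ˣ) : K))‖ = ‖φ ((u.toMul : (𝓞 K)ˣ) : K)‖ := by
        have h6 : φ.comp (algebraMap N K) = (φ.comp (c : K →+* K)).comp (algebraMap N K) := by
          ext y
          simp
        rcases eq_or_eq_conjugate hNK φ (φ.comp (c : K →+* K)) h6 with h7 | h7
        · exact congrArg norm (RingHom.congr_fun h7 _)
        · have h8 := RingHom.congr_fun h7 ((u.toMul : (𝓞 K)ˣ) : K)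
          have h9 : φ (c ((u.toMul : (𝓞 K)ˣ) : K)) =
              (starRingEnd ℂ) (φ ((u.toMul : (𝓞 K)ˣ) : K)) := h8
          rw [h9, RCLike.norm_conj]
      rw [hwv, map_mul, map_inv₀, norm_mul, norm_inv, h5, mul_inv_cancel₀ (norm_ne_zero_iff.2 h4)]
    obtain ⟨n, hn, hpow⟩ := NumberField.Embeddings.pow_eq_one_of_norm_eq_one K ℂ
      (RingOfIntegers.isIntegral_coe ((w.toMul : (𝓞 K)ˣ) : 𝓞 K)) hnorm
    have hz : n • w = 0 := by
      apply Additive.toMul.injective
      apply Units.ext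
      apply RingOfIntegers.ext
      rw [toMul_nsmul, Units.val_pow_eq_pow_val]
      show (algebraMap (𝓞 K) K) (((w.toMul : (𝓞 K)ˣ) : 𝓞 K) ^ n) = (algebraMap (𝓞 K) K) 1
      rw [map_pow, hpow, map_one]
    have h0 := tmul_eq_zero_of_tors a w n hn hz
    rw [hw, TensorProduct.tmul_sub, sub_eq_zero] at h0
    exact h0

end cm

variable {p : ℕ} [Fact p.Prime] (L : IwasawaLog p ℂ_[p])

/-- The main step: `H` is a totally complex quadratic extension of the totally real field `R`. -/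
theorem sigma_core {R H Ω : Type} [Field R] [NumberField R] [Field H] [NumberField H] [Algebra R H]
    [IsTotallyReal R] [IsTotallyComplex H] (hRH : finrank R H = 2) [Field Ω] [CharZero Ω]
    [IsAlgClosed Ω] (ιinf : Ω →+* ℂ) (ιp : Ω →+* ℂ_[p]) (S : Set (H →+* ℂ))
    (hS : IsCMType S) (x : ℂ_[p] ⊗[ℤ] Additive (𝓞 H)ˣ)
    (hx : ∀ σ : H →+* Ω, ιinf.comp σ ∈ S → extHom (logUnits L (ιp.comp σ)) x = 0) :
    ∃ y ∈ logKer L R, (2 : ℂ_[p]) • x = pf ℂ_[p] (algebraMap R H) y := by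
  classical
  have hfd : FiniteDimensional R H := FiniteDimensional.of_finrank_pos (by omega)
  have hq : IsGalois R H := by
    have h1 : Algebra.IsQuadraticExtension R H := ⟨hRH⟩
    infer_instance
  have hsum : ∑ g : H ≃ₐ[R] H, extEnd (unitsHom g) x = (2 : ℂ_[p]) • x := by
    rw [Finset.sum_congr rfl fun g _ ↦ unitsHom_conj hRH g x, Finset.sum_const, Finset.card_univ,
      ← Nat.card_eq_fintype_card, IsGalois.card_aut_eq_finrank, hRH, ← Nat.cast_smul_eq_nsmul ℂ_[p]]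
    norm_num
  have hpf := pf_nmU (F := R) ℂ_[p] x
  rw [hsum] at hpf
  refine ⟨extM (nmU R H) x, (mem_logKer L _).2 fun τ ↦ ?_, hpf.symm⟩
  obtain ⟨τ', hτ'⟩ := exists_lift_embedding ιp τ
  obtain ⟨φ, hφS, hφ⟩ := hS.exists_mem (ιinf.comp τ')
  obtain ⟨σ, hσ⟩ := exists_lift_embedding ιinf φ
  have hσ2 : σ.comp (algebraMap R H) = τ' := by
    ext y
    apply ιinf.injective
    rw [← hσ] at hφ
    exact RingHom.congr_fun hφ y
  have h1 : τ = (ιp.comp σ).comp (algebraMap R H) := by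
    rw [RingHom.comp_assoc, hσ2, hτ']
  rw [h1, ← extHom_logUnits_pf, hpf, map_smul, hx σ (by rw [hσ]; exact hφS), smul_zero]

/-- The embeddings of `H` which restrict to an element of the CM type of `K`. -/
theorem isCMType_up {K H : Type} [Field K] [Field H] [Algebra K H] {S : Set (K →+* ℂ)}
    (hS : IsCMType S) : IsCMType {φ : H →+* ℂ | φ.comp (algebraMap K H) ∈ S} := by
  intro φ
  show φ.comp (algebraMap K H) ∈ S ↔
    (ComplexEmbedding.conjugate φ).comp (algebraMap K H) ∉ S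
  rw [hS (φ.comp (algebraMap K H)), ComplexEmbedding.conjugate_comp]

/-- The component of `x` for `χ`, if it is killed by the logarithms in `Σ_H`. -/
theorem sigma_step {R H K : Type} [Field R] [NumberField R] [Field H] [NumberField H] [Algebra R H]
    [IsTotallyReal R] [IsTotallyComplex H] [Field K] [Algebra K H] (hRH : finrank R H = 2)
    (ιinf : AlgebraicClosure ℚ →+* ℂ) (ιp : AlgebraicClosure ℚ →+* ℂ_[p]) (S : Set (K →+* ℂ))
    (hS : IsCMType S) (z : ℂ_[p] ⊗[ℤ] Additive (𝓞 H)ˣ)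
    (hz : ∀ ℓ ∈ logSigma (H := H) ιinf ιp S L, extHom ℓ z = 0) :
    ∃ y ∈ logKer L R, (2 : ℂ_[p]) • z = pf ℂ_[p] (algebraMap R H) y :=
  sigma_core L hRH ιinf ιp _ (isCMType_up hS) z fun σ hσ ↦ hz _ ⟨σ, hσ, rfl⟩

/-- **L_SIG**, all the characters. -/
theorem sigmaAll_of_leopoldt {R : Type} [Field R] [NumberField R] [IsTotallyReal R]
    (hL : Leopoldt L R) : SigmaAll L R := by
  intro H K _ _ _ _ _ _ _ _ _ hRH χ ιinf ιp S hS x hx
  obtain ⟨y, hy, h2⟩ := sigma_step L hRH ιinf ιp S hS _ hx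
  rw [hL, Submodule.mem_bot] at hy
  rw [hy, map_zero] at h2
  rcases smul_eq_zero.1 h2 with h | h
  · exact absurd h two_ne_zero
  · exact h

/-- **L_SIG**, the new characters. -/
theorem sigmaNew_of_exists {R : Type} [Field R] [NumberField R] [IsTotallyReal R] {M : Type}
    [Field M] [Algebra M R] (T : Set R) (hT : ∀ y : M, algebraMap M R y ∈ T)
    (h : ∀ x ∈ logKer L R, ∃ y : ℂ_[p] ⊗[ℤ] Additive (𝓞 M)ˣ, x = pf ℂ_[p] (algebraMap M R) y) :
    SigmaNew L R T := by
  intro H K _ _ _ _ _ _ _ _ _ hRH χ hχ ιinf ιp S hS x hx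
  have hfd : FiniteDimensional K H := FiniteDimensional.right ℚ K H
  obtain ⟨g, hg, hne⟩ := hχ
  obtain ⟨y, hy, h2⟩ := sigma_step L hRH ιinf ιp S hS _ hx
  obtain ⟨w, rfl⟩ := h y hy
  set z := eChi (finrank K H) χ unitsHom x with hz
  have h3 : extEnd (unitsHom g) z = z := by
    have h4 : extEnd (unitsHom g) ((2 : ℂ_[p]) • z) = (2 : ℂ_[p]) • z := by
      have e : (g : H →+* H).comp ((algebraMap R H).comp (algebraMap M R)) =
          (algebraMap R H).comp (algebraMap M R) := by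
        ext m
        exact hg _ (hT m)
      rw [h2, pf_pf, ← pf_eq_extEnd, pf_pf, e]
    rw [map_smul] at h4
    exact smul_right_injective _ (two_ne_zero (α := ℂ_[p])) h4
  have h5 := eig_eChi (finrank K H) χ x g
  rw [← hz, h3] at h5
  have h6 : (((χ g : ℂ_[p]ˣ) : ℂ_[p]) - 1) • z = 0 := by
    rw [sub_smul, one_smul]
    exact sub_eq_zero.2 h5.symm
  rcases smul_eq_zero.1 h6 with h7 | h7
  · exact absurd (Units.ext (sub_eq_zero.1 h7)) hne
  · exact h7

end Pool.Agent.Helper76.LEO
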