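import Pool.Agent.Helper38.FD.Defs

/-!
# Leopoldt's conjecture in cyclic extensions of degree `p` (MP_fc6b1e_nt): definitions

`Ω` is the algebraic closure of the number field `F`, `M` and `N` are subfields of `Ω`, finite over `F`;
`M ⊔ N` is their compositum.
-/

namespace Pool.Agent.Helper76.LEO

open NumberField Module IsDedekindDomain TensorProduct Pool.Agent.Helper51.SigLeo

/-- The kernel of the `p`-adic logarithm on `ℂ_p ⊗ (𝓞_N)ˣ`: the elements which are killed by the
`ℂ_p`-linear extensions of all the maps `u ↦ L(τ(u))`, for the embeddings `τ : N → ℂ_p`. -/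
noncomputable def logKer {p : ℕ} [Fact p.Prime] (L : IwasawaLog p ℂ_[p]) (N : Type) [Field N] :
    Submodule ℂ_[p] (ℂ_[p] ⊗[ℤ] Additive (𝓞 N)ˣ) :=
  ⨅ τ : N →+* ℂ_[p], LinearMap.ker (extHom (logUnits L τ))

/-- The Leopoldt defect of `N` at `p`: the dimension of the kernel of the `p`-adic logarithm. -/
noncomputable def defect {p : ℕ} [Fact p.Prime] (L : IwasawaLog p ℂ_[p]) (N : Type) [Field N] : ℕ :=
  finrank ℂ_[p] (logKer L N)

/-- Leopoldt's conjecture for the number field `N` and the prime `p`: the `p`-adic logarithm is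
injective. -/
def Leopoldt {p : ℕ} [Fact p.Prime] (L : IwasawaLog p ℂ_[p]) (N : Type) [Field N] : Prop :=
  logKer L N = ⊥

/-- `M` is an abelian extension of a number field `k` with exactly one infinite place (`k` is `ℚ` or an
imaginary quadratic field). -/
def AbelianBase (M : Type) [Field M] : Prop :=
  ∃ (k : Type) (_ : Field k) (_ : NumberField k) (_ : Algebra k M),
    IsGalois k M ∧ (∀ g h : M ≃ₐ[k] M, g * h = h * g) ∧ ∀ v w : InfinitePlace k, v = w

/-- The `Σ`-Leopoldt conjecture for all the totally complex quadratic extensions `H` of the totally real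
field `R`, for all the totally complex subfields `K` of `H` such that `H/K` is Galois, all the characters `χ` of
`Gal(H/K)`, all CM types `S` of `K` and all the embeddings `ι_∞`, `ι_p`. -/
def SigmaAll {p : ℕ} [Fact p.Prime] (L : IwasawaLog p ℂ_[p]) (R : Type) [Field R] : Prop :=
  ∀ (H K : Type) [Field H] [NumberField H] [IsTotallyComplex H] [Algebra R H] [Field K]
    [NumberField K] [IsTotallyComplex K] [Algebra K H] [IsGalois K H], finrank R H = 2 →
  ∀ (χ : (H ≃ₐ[K] H) →* ℂ_[p]ˣ) (ιinf : AlgebraicClosure ℚ →+* ℂ)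
    (ιp : AlgebraicClosure ℚ →+* ℂ_[p]) (S : Set (K →+* ℂ)), IsCMType S →
    InjectiveOn (finrank K H) χ unitsHom (logSigma ιinf ιp S L)

/-- The same, only for the characters `χ` such that `χ(g) ≠ 1` for some `g ∈ Gal(H/K)` which is the identity
on the subset `M` of `R`. -/
def SigmaNew {p : ℕ} [Fact p.Prime] (L : IwasawaLog p ℂ_[p]) (R : Type) [Field R] (M : Set R) :
    Prop :=
  ∀ (H K : Type) [Field H] [NumberField H] [IsTotallyComplex H] [Algebra R H] [Field K]
    [NumberField K] [IsTotallyComplex K] [Algebra K H] [IsGalois K H], finrank R H = 2 →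
  ∀ (χ : (H ≃ₐ[K] H) →* ℂ_[p]ˣ),
    (∃ g : H ≃ₐ[K] H, (∀ x ∈ M, g (algebraMap R H x) = algebraMap R H x) ∧ χ g ≠ 1) →
  ∀ (ιinf : AlgebraicClosure ℚ →+* ℂ) (ιp : AlgebraicClosure ℚ →+* ℂ_[p]) (S : Set (K →+* ℂ)),
    IsCMType S → InjectiveOn (finrank K H) χ unitsHom (logSigma ιinf ιp S L)

/-- `N` is good for `M`: the defect of `MN` is that of `M`; Leopoldt's conjecture holds for `MN` if it holds for
`M`, and in any case if `M` is abelian over `ℚ` or an imaginary quadratic field; and if moreover `M` is totally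
real, then the `Σ`-Leopoldt conjecture holds for all the characters of CM fields `H` which are quadratic over
`MN`. If `M` is totally real, the `Σ`-Leopoldt conjecture always holds for those of them which are not trivial on
the automorphisms which are the identity on `M`. -/
structure Good {p : ℕ} [Fact p.Prime] (L : IwasawaLog p ℂ_[p]) {F : Type} [Field F]
    (M N : IntermediateField F (AlgebraicClosure F)) : Prop where
  defect_eq : defect L ↥(M ⊔ N) = defect L M
  leopoldt : Leopoldt L M ∨ AbelianBase M → Leopoldt L ↥(M ⊔ N)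
  sigmaAll : Leopoldt L M ∨ AbelianBase M → IsTotallyReal M → SigmaAll L ↥(M ⊔ N)
  sigmaNew : IsTotallyReal M → SigmaNew L ↥(M ⊔ N) {x | (x : AlgebraicClosure F) ∈ M}

/-- `g` is in the decomposition group of the place of `Ω` above `p` which is induced by `τ : Ω → ℂ_p`. -/
def InDec {p : ℕ} [Fact p.Prime] {F : Type} [Field F] (τ : AlgebraicClosure F →+* ℂ_[p])
    (g : AlgebraicClosure F ≃ₐ[F] AlgebraicClosure F) : Prop :=
  ∀ x : AlgebraicClosure F, ‖τ (g x)‖ = ‖τ x‖

/-- The cyclic extensions of `F` of degree `p`. -/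
def CycExt (p : ℕ) (F : Type) [Field F] : Set (IntermediateField F (AlgebraicClosure F)) :=
  {N | finrank F N = p ∧ IsGalois F N}

/-- `N` and `N'` have the same completions above `p`: the decomposition groups above `p` have the same
intersections with `Gal(Ω/N)` and with `Gal(Ω/N')`. -/
def SameP (p : ℕ) [Fact p.Prime] {F : Type} [Field F]
    (N N' : IntermediateField F (AlgebraicClosure F)) : Prop :=
  ∀ (τ : AlgebraicClosure F →+* ℂ_[p]) (g : AlgebraicClosure F ≃ₐ[F] AlgebraicClosure F),
    InDec τ g → ((∀ x ∈ N, g x = x) ↔ ∀ x ∈ N', g x = x)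

/-- The set `A` of cyclic extensions of degree `p` of `F` is not empty and given by conditions on the
completions above `p`. The places above `p` at which the completion of `M` contains the `p`-th roots of unity
split completely in the fields in `A`. -/
structure IsFamily (p : ℕ) [Fact p.Prime] {F : Type} [Field F]
    (M : IntermediateField F (AlgebraicClosure F))
    (A : Set (IntermediateField F (AlgebraicClosure F))) : Prop where
  subset : A ⊆ CycExt p F
  nonempty : A.Nonempty
  same : ∀ N ∈ A, ∀ N' ∈ CycExt p F, SameP p N N' → N' ∈ A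
  split : ∀ N ∈ A, ∀ τ : AlgebraicClosure F →+* ℂ_[p],
    (∀ g : AlgebraicClosure F ≃ₐ[F] AlgebraicClosure F, InDec τ g → (∀ x ∈ M, g x = x) →
      ∀ ξ : AlgebraicClosure F, ξ ^ p = 1 → g ξ = ξ) →
    ∀ g : AlgebraicClosure F ≃ₐ[F] AlgebraicClosure F, InDec τ g → ∀ x ∈ N, g x = x

/-- The function `e` of the fields `N` has values `≥ 1` and depends only on the completions of `N` above
`p`. -/
structure IsFactor (p : ℕ) [Fact p.Prime] {F : Type} [Field F]
    (e : IntermediateField F (AlgebraicClosure F) → ℕ) : Prop where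
  one_le : ∀ N, 1 ≤ e N
  same : ∀ N ∈ CycExt p F, ∀ N' ∈ CycExt p F, SameP p N N' → e N = e N'

/-- The product of the norms of the primes `v` of `F` which are not above `p` and are ramified in `N`, that is,
`v 𝓞_N ⊆ V²` for some prime `V` of `N`. -/
noncomputable def tame (p : ℕ) (F N : Type) [Field F] [NumberField F] [Field N] [Algebra F N] : ℕ :=
  ∏ᶠ (v : HeightOneSpectrum (𝓞 F)) (_ : (p : 𝓞 F) ∉ v.asIdeal ∧
    ∃ V : HeightOneSpectrum (𝓞 N), v.asIdeal.map (algebraMap (𝓞 F) (𝓞 N)) ≤ V.asIdeal ^ 2),
    Ideal.absNorm v.asIdeal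

/-- The number of the `N ∈ A` with `tame p F N * e N ≤ X`. -/
noncomputable def count (p : ℕ) {F : Type} [Field F] [NumberField F]
    (e : IntermediateField F (AlgebraicClosure F) → ℕ)
    (A : Set (IntermediateField F (AlgebraicClosure F))) (X : ℕ) : ℝ :=
  {N | N ∈ A ∧ tame p F N * e N ≤ X}.ncard

/-- The sum over the characters `χ` of `Gal(M/F)` of `1 / (f Q^r (Q - 1))`, where `f` is the order of `p` modulo
the order of `χ`, `Q = p^f` and `r` is the number of the complex places of `F`. For `M = F` it is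
`1 / (p^r (p - 1))`. -/
noncomputable def theta (p : ℕ) [Fact p.Prime] {F : Type} [Field F] [NumberField F]
    (M : IntermediateField F (AlgebraicClosure F)) : ℝ :=
  ∑ᶠ χ : (M ≃ₐ[F] M) →* ℂ_[p]ˣ, 1 / ((orderOf (p : ZMod (orderOf χ)) : ℝ) *
    (((p : ℝ) ^ orderOf (p : ZMod (orderOf χ))) ^ InfinitePlace.nrComplexPlaces F *
      ((p : ℝ) ^ orderOf (p : ZMod (orderOf χ)) - 1)))

end Pool.Agent.Helper76.LEO
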