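import Pool.Agent.Helper76.LEO.Rel
import Pool.Agent.Helper76.LEO.CM
import Pool.Agent.Helper76.LEO.Abel
import Pool.Agent.Helper17.SL.Chain
import Pool.Agent.Helper38.SLG.TRT
import Pool.Agent.Helper19.SLG.ARCH
import Pool.Agent.Helper55.SLG.BC
import Pool.Agent.Helper94.SLG.VAL

/-!
# LEO: `L_GOOD`
-/

set_option autoImplicit false

namespace Pool.Agent.Helper76.LEO

open NumberField Module TensorProduct Pool.Agent.Helper51.SigLeo Pool.Agent.Helper59.SL
open Pool.Agent.Helper38.FD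

/-- Brumer's theorem. -/
theorem leopoldt_of_abelianBase {p : ℕ} [Fact p.Prime] (L : IwasawaLog p ℂ_[p]) {M : Type}
    [Field M] [NumberField M] (h : AbelianBase M) : Leopoldt L M := by
  obtain ⟨k, _, _, _, hg, hcomm, hk⟩ := h
  exact leopoldt_abelian' (Pool.Agent.Helper38.SLG.TRT.thm Pool.Agent.Helper17.SL.trans_holds)
    Pool.Agent.Helper19.SLG.ARCH.thm Pool.Agent.Helper55.SLG.BC.thm
    Pool.Agent.Helper94.SLG.VAL.thm L hcomm hk

/-- A Galois extension of odd degree of a totally real field is totally real. -/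
theorem totallyReal_of_odd {M R : Type} [Field M] [NumberField M] [Field R] [NumberField R]
    [Algebra M R] [IsGalois M R] (hodd : Odd (finrank M R)) [IsTotallyReal M] :
    IsTotallyReal R := by
  have h1 : IsUnramifiedAtInfinitePlaces M R :=
    IsUnramifiedAtInfinitePlaces_of_odd_finrank hodd
  refine ⟨fun w ↦ ?_⟩
  rcases InfinitePlace.isUnramified_iff.1 (h1.isUnramified w) with h | h
  · exact h
  · exact absurd (IsTotallyReal.isReal (w.comap (algebraMap M R)))
      (InfinitePlace.not_isReal_iff_isComplex.2 h)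

theorem l_good : L_GOOD := by
  intro p hpF F _ _ M _ _ hcommM hcop hp2 L N hN ιinf ιp hG
  classical
  have hp : p.Prime := hpF.out
  obtain ⟨hdeg, hgN⟩ := hN
  have hfN : FiniteDimensional F N := FiniteDimensional.of_finrank_pos (by
    rw [hdeg]; exact hp.pos)
  have hfR : FiniteDimensional F ↥(M ⊔ N) := IntermediateField.finiteDimensional_sup M N
  have hnR : NumberField ↥(M ⊔ N) := NumberField.of_module_finite F ↥(M ⊔ N)
  have hnM : NumberField M := NumberField.of_module_finite F M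
  have hgR : IsGalois F ↥(M ⊔ N) := by
    have h1 : Normal F ↥(M ⊔ N) := inferInstance
    exact ⟨⟩
  -- `Gal(MN/F)` is commutative
  have hcardN : Nat.card (N ≃ₐ[F] N) = p := by rw [IsGalois.card_aut_eq_finrank, hdeg]
  have hcycN : IsCyclic (N ≃ₐ[F] N) := isCyclic_of_prime_card hcardN
  have hcommN : ∀ g h : N ≃ₐ[F] N, g * h = h * g := fun g h ↦ IsMulCommutative.is_comm.comm g h
  have hfixres : ∀ (K : IntermediateField F (AlgebraicClosure F)) [IsGalois F K],
      (∀ g h : K ≃ₐ[F] K, g * h = h * g) → ∀ g h : AlgebraicClosure F ≃ₐ[F] AlgebraicClosure F,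
      ∀ x ∈ K, (g * h * g⁻¹ * h⁻¹) x = x := by
    intro K _ hK g h x hx
    have h1 : AlgEquiv.restrictNormalHom K (g * h * g⁻¹ * h⁻¹) = 1 := by
      rw [map_mul, map_mul, map_mul, map_inv, map_inv,
        hK (AlgEquiv.restrictNormalHom K g) (AlgEquiv.restrictNormalHom K h)]
      group
    have h2 := AlgEquiv.restrictNormal_commutes (g * h * g⁻¹ * h⁻¹) K ⟨x, hx⟩
    have h3 : (g * h * g⁻¹ * h⁻¹).restrictNormal K = 1 := h1
    rw [h3] at h2
    exact h2.symm
  have hcommR : ∀ g h : ↥(M ⊔ N) ≃ₐ[F] ↥(M ⊔ N), g * h = h * g := by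
    intro g h
    obtain ⟨g', rfl⟩ := AlgEquiv.restrictNormalHom_surjective (F := F) (K₁ := ↥(M ⊔ N))
      (AlgebraicClosure F) g
    obtain ⟨h', rfl⟩ := AlgEquiv.restrictNormalHom_surjective (F := F) (K₁ := ↥(M ⊔ N))
      (AlgebraicClosure F) h
    have h1 := fix_sup (g' * h' * g'⁻¹ * h'⁻¹) (hfixres M hcommM g' h') (hfixres N hcommN g' h')
    have h2 : AlgEquiv.restrictNormalHom ↥(M ⊔ N) (g' * h' * g'⁻¹ * h'⁻¹) = 1 := by
      ext y
      have h3 := AlgEquiv.restrictNormal_commutes (g' * h' * g'⁻¹ * h'⁻¹) ↥(M ⊔ N) y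
      exact h3.trans (h1 y y.2)
    rw [map_mul, map_mul, map_mul, map_inv, map_inv, mul_inv_eq_one, mul_inv_eq_iff_eq_mul] at h2
    exact h2
  -- `MN/M`
  let _ : Algebra M ↥(M ⊔ N) :=
    (IntermediateField.inclusion (le_sup_left : M ≤ M ⊔ N)).toRingHom.toAlgebra
  have hst : IsScalarTower F M ↥(M ⊔ N) := IsScalarTower.of_algebraMap_eq fun y ↦ rfl
  have hgMR : IsGalois M ↥(M ⊔ N) := IsGalois.tower_top_of_isGalois F M ↥(M ⊔ N)
  have hfMR : FiniteDimensional M ↥(M ⊔ N) := FiniteDimensional.right F M ↥(M ⊔ N)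
  have hfix : ∀ x ∈ logKer L ↥(M ⊔ N), ∀ g : ↥(M ⊔ N) ≃ₐ[M] ↥(M ⊔ N),
      extEnd (unitsHom g) x = x := by
    intro x hx g
    have h1 := fixed_of_chars hcommR (g.restrictScalars F) x fun χ hχ ↦
      eChi_zero_of_goodC L M N hdeg hcop ιinf ιp hG χ (g.restrictScalars F) (fun y hy ↦ by
        have h2 := g.commutes ⟨y, hy⟩
        exact h2) hχ x hx
    exact h1
  have hdef : defect L ↥(M ⊔ N) = defect L M := defect_of_fixed L hfix
  have hL : Leopoldt L M ∨ AbelianBase M → Leopoldt L ↥(M ⊔ N) := by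
    intro h
    have h1 : Leopoldt L M := h.elim id (leopoldt_of_abelianBase L)
    rw [leopoldt_iff_defect, hdef, ← leopoldt_iff_defect]
    exact h1
  have hR : IsTotallyReal M → IsTotallyReal ↥(M ⊔ N) := by
    intro h
    refine totallyReal_of_odd (M := M) ?_
    have h1 : ∀ g : ↥(M ⊔ N) ≃ₐ[M] ↥(M ⊔ N), g ^ p = 1 := by
      intro g
      obtain ⟨g', hg'⟩ := AlgEquiv.restrictNormalHom_surjective (F := F) (K₁ := ↥(M ⊔ N))
        (AlgebraicClosure F) (g.restrictScalars F)
      have h2 : ∀ y ∈ M, g' y = y := by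
        intro y hy
        have h3 := AlgEquiv.restrictNormal_commutes g' ↥(M ⊔ N)
          ⟨y, (le_sup_left : M ≤ M ⊔ N) hy⟩
        have h4 : g'.restrictNormal ↥(M ⊔ N) = g.restrictScalars F := hg'
        rw [h4] at h3
        have h5 := congrArg (fun z : ↥(M ⊔ N) ↦ (z : AlgebraicClosure F)) (g.commutes ⟨y, hy⟩)
        exact h3.symm.trans h5
      have h3 : ∀ y ∈ M, (g' ^ p) y = y := by
        intro y hy
        have h4 : g' ∈ M.fixingSubgroup := (IntermediateField.mem_fixingSubgroup_iff _ _).2 h2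
        exact (IntermediateField.mem_fixingSubgroup_iff _ _).1 (Subgroup.pow_mem _ h4 p) y hy
      have h4 : ∀ y ∈ N, (g' ^ p) y = y := by
        have h5 := fix_pow N g'
        rw [hdeg] at h5
        exact h5
      have h5 := fix_sup (g' ^ p) h3 h4
      have h6 : (g.restrictScalars F) ^ p = 1 := by
        rw [← hg', ← map_pow]
        ext y
        have h7 := AlgEquiv.restrictNormal_commutes (g' ^ p) ↥(M ⊔ N) y
        exact h7.trans (h5 y y.2)
      have h7 : ∀ n : ℕ, (g.restrictScalars F) ^ n = (g ^ n).restrictScalars F := by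
        intro n
        induction n with
        | zero => rfl
        | succ n ih => rw [pow_succ, pow_succ, ih]; rfl
      rw [h7] at h6
      ext y
      have h8 := congrArg (fun f : ↥(M ⊔ N) ≃ₐ[F] ↥(M ⊔ N) ↦ f y) h6
      exact congrArg Subtype.val h8
    have h2 : IsPGroup p (↥(M ⊔ N) ≃ₐ[M] ↥(M ⊔ N)) := fun g ↦ ⟨1, by rw [pow_one]; exact h1 g⟩
    obtain ⟨b, hb⟩ := IsPGroup.iff_card.1 h2
    rw [IsGalois.card_aut_eq_finrank] at hb
    rw [hb]
    exact (hp.odd_of_ne_two hp2).pow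
  refine ⟨hdef, hL, fun h hM ↦ ?_, fun hM ↦ ?_⟩
  · have := hR hM
    exact sigmaAll_of_leopoldt L (hL h)
  · have := hR hM
    refine sigmaNew_of_exists L (M := M) _ (fun y ↦ y.2) fun x hx ↦ ?_
    obtain ⟨y, -, hy⟩ := exists_of_fixed L hfix x hx
    exact ⟨y, hy⟩

end Pool.Agent.Helper76.LEO
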