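import Pool.Agent.Helper76.LEO.Alg
import Pool.Agent.Helper76.LEO.Goals
import Pool.Agent.Helper77.PPB.Core

/-!
# LEO: from the characters `χ φ` to the kernel of the logarithm for the compositum `MN`
-/

set_option autoImplicit false

namespace Pool.Agent.Helper76.LEO

open NumberField Module TensorProduct Pool.Agent.Helper51.SigLeo Pool.Agent.Helper59.SL
open Pool.Agent.Helper38.FD

section transfer

variable {p : ℕ} [Fact p.Prime] (L : IwasawaLog p ℂ_[p])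

/-- The component for a character `χ` of `Gal(H/F)` which comes from the intermediate field `H₀`. -/
theorem eChi_of_sub {F H₀ H : Type} [Field F] [NumberField F] [Field H₀] [NumberField H₀] [Field H]
    [NumberField H] [Algebra F H₀] [Algebra F H] [Algebra H₀ H] [IsScalarTower F H₀ H]
    [IsGalois F H₀] [IsGalois F H] (χ : (H ≃ₐ[F] H) →* ℂ_[p]ˣ) (χ₀ : (H₀ ≃ₐ[F] H₀) →* ℂ_[p]ˣ)
    (hχ : ∀ (g : H ≃ₐ[F] H) (g₀ : H₀ ≃ₐ[F] H₀),
      (∀ x : H₀, g (algebraMap H₀ H x) = algebraMap H₀ H (g₀ x)) → χ g = χ₀ g₀)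
    (hI : InjectiveOn (finrank F H₀) χ₀ unitsHom {ℓ | ∃ τ : H₀ →+* ℂ_[p], ℓ = logUnits L τ})
    (x : ℂ_[p] ⊗[ℤ] Additive (𝓞 H)ˣ) (hx : x ∈ logKer L H) :
    eChi (finrank F H) χ unitsHom x = 0 := by
  classical
  have hfd : FiniteDimensional F H := FiniteDimensional.right ℚ F H
  have hfd0 : FiniteDimensional F H₀ := FiniteDimensional.right ℚ F H₀
  have hfd1 : FiniteDimensional H₀ H := FiniteDimensional.right ℚ H₀ H
  have hg1 : IsGalois H₀ H := IsGalois.tower_top_of_isGalois F H₀ H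
  have hpos : 0 < finrank H₀ H := finrank_pos
  have hne : (finrank H₀ H : ℂ_[p]) ≠ 0 := by exact_mod_cast hpos.ne'
  set z := eChi (finrank F H) χ unitsHom x with hz
  have hzk : z ∈ logKer L H := (mem_logKer L z).2
    (eChi_kill L (finrank F H) χ x ((mem_logKer L x).1 hx))
  have hzE : Eig (fun γ : H ≃ₐ[F] H ↦ ((χ γ : ℂ_[p]ˣ) : ℂ_[p])) z := eig_eChi _ χ x
  -- the sum over `Gal(H/H₀)`
  have h1 : pf ℂ_[p] (algebraMap H₀ H) (extM (nmU H₀ H) z) = (finrank H₀ H : ℂ_[p]) • z := by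
    rw [pf_nmU]
    have h2 : ∀ g : H ≃ₐ[H₀] H, extEnd (unitsHom g) z = z := by
      intro g
      have h3 := hzE (g.restrictScalars F)
      have h4 : χ (g.restrictScalars F) = 1 := by
        rw [hχ (g.restrictScalars F) 1 fun x ↦ by simp, map_one]
      simp only [h4, Units.val_one, one_smul] at h3
      exact h3
    rw [Finset.sum_congr rfl fun g _ ↦ h2 g, Finset.sum_const, Finset.card_univ,
      ← Nat.card_eq_fintype_card, IsGalois.card_aut_eq_finrank, ← Nat.cast_smul_eq_nsmul ℂ_[p]]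
  set y := extM (nmU H₀ H) z with hy
  have hyk : y ∈ logKer L H₀ := extM_nmU_mem L z hzk
  have hyE : Eig (fun γ : H₀ ≃ₐ[F] H₀ ↦ ((χ₀ γ : ℂ_[p]ˣ) : ℂ_[p])) y := by
    intro g₀
    obtain ⟨g, hg⟩ : ∃ g : H ≃ₐ[F] H,
        ∀ x : H₀, g (algebraMap H₀ H x) = algebraMap H₀ H (g₀ x) := by
      refine ⟨g₀.liftNormal H, fun x ↦ g₀.liftNormal_commutes H x⟩
    apply pf_injective (F := H₀) (H := H) ℂ_[p]
    have e : (g : H →+* H).comp (algebraMap H₀ H) =
        (algebraMap H₀ H).comp (g₀ : H₀ →+* H₀) := by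
      ext m
      exact hg m
    rw [← pf_eq_extEnd, pf_pf, ← e, ← pf_pf, h1, pf_eq_extEnd, map_smul, map_smul, hzE g, h1]
    show (finrank H₀ H : ℂ_[p]) • ((χ g : ℂ_[p]ˣ) : ℂ_[p]) • z =
      ((χ₀ g₀ : ℂ_[p]ˣ) : ℂ_[p]) • (finrank H₀ H : ℂ_[p]) • z
    rw [hχ g g₀ hg, smul_comm]
  have hy0 : y = 0 := by
    rw [← hyE.eChi_eq]
    apply hI
    rintro ℓ ⟨τ, rfl⟩
    rw [hyE.eChi_eq]
    exact (mem_logKer L y).1 hyk τ
  rw [hy0, map_zero] at h1
  rcases smul_eq_zero.1 h1.symm with h | h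
  · exact absurd h hne
  · exact h

end transfer

section decomp

variable {p : ℕ} [hpF : Fact p.Prime] {F : Type} [Field F] [NumberField F]

/-- More functionals. -/
theorem injectiveOn_mono {k G M : Type*} [Field k] [Group G] [AddCommGroup M] {n : ℕ} {χ : G →* kˣ}
    {a : G → M →+ M} {T T' : Set (M →+ k)} (h : T ⊆ T') (hT : InjectiveOn n χ a T) :
    InjectiveOn n χ a T' := fun x hx ↦ hT x fun ℓ hℓ ↦ hx ℓ (h hℓ)

/-- The power of an automorphism with exponent the degree of the Galois extension `K` fixes `K`. -/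
theorem fix_pow (K : IntermediateField F (AlgebraicClosure F)) [FiniteDimensional F K]
    [IsGalois F K] (g : AlgebraicClosure F ≃ₐ[F] AlgebraicClosure F) :
    ∀ x ∈ K, (g ^ finrank F K) x = x := by
  intro x hx
  have h1 : AlgEquiv.restrictNormalHom K (g ^ finrank F K) = 1 := by
    rw [map_pow, ← IsGalois.card_aut_eq_finrank F K, pow_card_eq_one']
  have h2 := AlgEquiv.restrictNormal_commutes (g ^ finrank F K) K ⟨x, hx⟩
  have h3 : (g ^ finrank F K).restrictNormal K = 1 := h1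
  rw [h3] at h2
  exact h2.symm

variable (L : IwasawaLog p ℂ_[p])

/-- The components for the characters of `Gal(MN/F)` which are not trivial on `Gal(MN/M)`. -/
theorem eChi_zero_of_goodC (M N : IntermediateField F (AlgebraicClosure F))
    [FiniteDimensional F M] [IsGalois F M] [FiniteDimensional F N] [IsGalois F N]
    (hN : finrank F N = p) (hcop : (finrank F M).Coprime p)
    (ιinf : AlgebraicClosure F →+* ℂ) (ιp : AlgebraicClosure F →+* ℂ_[p])
    (hG : GoodC ιinf ιp L M N) [NumberField ↥(M ⊔ N)] [IsGalois F ↥(M ⊔ N)]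
    (χ' : (↥(M ⊔ N) ≃ₐ[F] ↥(M ⊔ N)) →* ℂ_[p]ˣ)
    (g₀ : ↥(M ⊔ N) ≃ₐ[F] ↥(M ⊔ N)) (hg₀ : ∀ x : ↥(M ⊔ N), (x : AlgebraicClosure F) ∈ M → g₀ x = x)
    (hne : χ' g₀ ≠ 1) (x : ℂ_[p] ⊗[ℤ] Additive (𝓞 ↥(M ⊔ N))ˣ) (hx : x ∈ logKer L ↥(M ⊔ N)) :
    eChi (finrank F ↥(M ⊔ N)) χ' unitsHom x = 0 := by
  classical
  have hp : p.Prime := hpF.out
  set m := finrank F M with hm
  obtain ⟨u, hu1, hu2⟩ := Nat.chineseRemainder hcop 1 0
  obtain ⟨v, hv1, hv2⟩ := Nat.chineseRemainder hcop 0 1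
  set X : Chr F (AlgebraicClosure F) ℂ_[p] :=
    χ'.comp (AlgEquiv.restrictNormalHom ↥(M ⊔ N)) with hX
  have hres : ∀ (g : AlgebraicClosure F ≃ₐ[F] AlgebraicClosure F) (y : ↥(M ⊔ N)),
      g y = (AlgEquiv.restrictNormalHom ↥(M ⊔ N) g y : ↥(M ⊔ N)) :=
    fun g y ↦ (AlgEquiv.restrictNormal_commutes g ↥(M ⊔ N) y).symm
  have hXR : ∀ g : AlgebraicClosure F ≃ₐ[F] AlgebraicClosure F,
      (∀ y ∈ M, g y = y) → (∀ y ∈ N, g y = y) → X g = 1 := by
    intro g h1 h2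
    have h3 := fix_sup g h1 h2
    have h4 : AlgEquiv.restrictNormalHom ↥(M ⊔ N) g = 1 := by
      ext y
      rw [← hres g y]
      exact h3 y y.2
    rw [hX, MonoidHom.comp_apply, h4, map_one]
  have hpowfix : ∀ (K : IntermediateField F (AlgebraicClosure F))
      (g : AlgebraicClosure F ≃ₐ[F] AlgebraicClosure F) (n : ℕ), (∀ y ∈ K, g y = y) →
      ∀ y ∈ K, (g ^ n) y = y := by
    intro K g n h y hy
    have h1 : g ∈ K.fixingSubgroup := (IntermediateField.mem_fixingSubgroup_iff _ _).2 h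
    exact (IntermediateField.mem_fixingSubgroup_iff _ _).1 (Subgroup.pow_mem _ h1 n) y hy
  have hfixM : ∀ g : AlgebraicClosure F ≃ₐ[F] AlgebraicClosure F,
      (∀ y ∈ M, g y = y) → X g ^ p = 1 := by
    intro g h
    rw [← map_pow]
    refine hXR _ (hpowfix M g p h) ?_
    rw [← hN]
    exact fix_pow N g
  have hfixN : ∀ g : AlgebraicClosure F ≃ₐ[F] AlgebraicClosure F,
      (∀ y ∈ N, g y = y) → X g ^ m = 1 := by
    intro g h
    rw [← map_pow]
    exact hXR _ (fix_pow M g) (hpowfix N g m h)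
  have hall : ∀ g : AlgebraicClosure F ≃ₐ[F] AlgebraicClosure F, X g ^ (m * p) = 1 := by
    intro g
    rw [pow_mul, ← map_pow]
    exact hfixM _ (fix_pow M g)
  set χ : Chr F (AlgebraicClosure F) ℂ_[p] :=
    (powMonoidHom u : ℂ_[p]ˣ →* ℂ_[p]ˣ).comp X with hχd
  set φ : Chr F (AlgebraicClosure F) ℂ_[p] :=
    (powMonoidHom v : ℂ_[p]ˣ →* ℂ_[p]ˣ).comp X with hφd
  have hχv : ∀ g, χ g = X g ^ u := fun g ↦ rfl
  have hφv : ∀ g, φ g = X g ^ v := fun g ↦ rfl
  have hmul : χ * φ = X := by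
    refine MonoidHom.ext fun g ↦ ?_
    rw [MonoidHom.mul_apply, hχv, hφv, ← pow_add]
    conv_rhs => rw [← pow_one (X g)]
    rw [pow_eq_pow_iff_modEq]
    have h1 : u + v ≡ 1 [MOD m * p] := by
      rw [← Nat.modEq_and_modEq_iff_modEq_mul hcop]
      exact ⟨by simpa using hu1.add hv1, by simpa using hu2.add hv2⟩
    exact h1.of_dvd (orderOf_dvd_of_pow_eq_one (hall g))
  have hχM : ∀ g : AlgebraicClosure F ≃ₐ[F] AlgebraicClosure F,
      (∀ y ∈ M, g y = y) → χ g = 1 := by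
    intro g h
    obtain ⟨c, hc⟩ := (Nat.modEq_zero_iff_dvd).1 hu2
    rw [hχv, hc, pow_mul, hfixM g h, one_pow]
  -- a lift of `g₀`
  obtain ⟨g₁, hg₁⟩ := AlgEquiv.restrictNormalHom_surjective (F := F) (K₁ := ↥(M ⊔ N))
    (AlgebraicClosure F) g₀
  have hg₁M : ∀ y ∈ M, g₁ y = y := by
    intro y hy
    have h1 := hres g₁ ⟨y, (le_sup_left : M ≤ M ⊔ N) hy⟩
    rw [hg₁, hg₀ _ hy] at h1
    exact h1
  have hφg₁ : φ g₁ ≠ 1 := by
    have h1 : φ g₁ = X g₁ := by
      rw [hφv]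
      conv_rhs => rw [← pow_one (X g₁)]
      rw [pow_eq_pow_iff_modEq]
      exact hv2.of_dvd (orderOf_dvd_of_pow_eq_one (hfixM g₁ hg₁M))
    rw [h1, hX, MonoidHom.comp_apply, hg₁]
    exact hne
  have hφN : ∀ g : AlgebraicClosure F ≃ₐ[F] AlgebraicClosure F,
      (∀ y ∈ N, g y = y) → φ g = 1 := by
    intro g h
    obtain ⟨c, hc⟩ := (Nat.modEq_zero_iff_dvd).1 hv1
    rw [hφv, hc, pow_mul, hfixN g h, one_pow]
  have hcut : CutsOut φ N := by
    intro g
    refine ⟨fun h1 ↦ ?_, hφN g⟩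
    by_contra h2
    have h3 : AlgEquiv.restrictNormalHom N g ≠ 1 := by
      intro h4
      apply h2
      intro y hy
      have h5 := AlgEquiv.restrictNormal_commutes g N ⟨y, hy⟩
      have h6 : g.restrictNormal N = 1 := h4
      rw [h6] at h5
      exact h5.symm
    have hcard : Nat.card (N ≃ₐ[F] N) = p := by rw [IsGalois.card_aut_eq_finrank, hN]
    obtain ⟨j, hj⟩ := Subgroup.mem_zpowers_iff.1
      (mem_zpowers_of_prime_card hcard h3 (g' := AlgEquiv.restrictNormalHom N g₁))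
    have h4 : AlgEquiv.restrictNormalHom N ((g ^ j)⁻¹ * g₁) = 1 := by
      rw [map_mul, map_inv, map_zpow, hj, inv_mul_cancel]
    have h5 : φ ((g ^ j)⁻¹ * g₁) = 1 := by
      apply hφN
      intro y hy
      have h6 := AlgEquiv.restrictNormal_commutes ((g ^ j)⁻¹ * g₁) N ⟨y, hy⟩
      have h7 : ((g ^ j)⁻¹ * g₁).restrictNormal N = 1 := h4
      rw [h7] at h6
      exact h6.symm
    rw [map_mul, map_inv, map_zpow, h1, one_zpow, inv_one, one_mul] at h5
    exact hφg₁ h5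
  have hLF := hG χ φ hχM hcut
  rw [hmul] at hLF
  obtain ⟨H₀, hfH, hcH, χ'', hr, hI⟩ := hLF
  have hgH : IsGalois F H₀ := isGalois_of_cutsOut hcH
  have hnH : NumberField H₀ := NumberField.of_module_finite F H₀
  have hle : H₀ ≤ M ⊔ N := by
    refine Pool.Agent.Helper22.PP.le_of_fix fun g hg ↦ (hcH g).1 ?_
    exact hXR g (fun y hy ↦ hg y ((le_sup_left : M ≤ M ⊔ N) hy))
      (fun y hy ↦ hg y ((le_sup_right : N ≤ M ⊔ N) hy))
  let _ : Algebra H₀ ↥(M ⊔ N) := (IntermediateField.inclusion hle).toRingHom.toAlgebra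
  have hst : IsScalarTower F H₀ ↥(M ⊔ N) := IsScalarTower.of_algebraMap_eq fun y ↦ rfl
  refine eChi_of_sub L χ' χ'' ?_ ?_ x hx
  · intro g g₀' hgg
    obtain ⟨g', hg'⟩ := AlgEquiv.restrictNormalHom_surjective (F := F) (K₁ := ↥(M ⊔ N))
      (AlgebraicClosure F) g
    have h1 : X g' = χ'' g₀' := by
      apply hr
      intro y
      have h2 := hres g' (IntermediateField.inclusion hle y)
      rw [hg'] at h2
      have h3 := congrArg (fun z : ↥(M ⊔ N) ↦ (z : AlgebraicClosure F)) (hgg y)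
      exact h2.trans h3
    rw [← h1, hX, MonoidHom.comp_apply, hg']
  · refine injectiveOn_mono ?_ hI
    rintro ℓ ⟨σ, -, rfl⟩
    exact ⟨_, rfl⟩

end decomp

end Pool.Agent.Helper76.LEO
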